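import Pool.Agent.Helper22.MI.Stmts0

/-! mi_mods REC: a cover by few good sets -/

set_option autoImplicit false

namespace Pool.Agent.Helper22.MI

open Finset

/-- span of the differences of the integer points with index in `T` -/
noncomputable def rec_D {ι : Type} {k : ℕ} (z : ι → Fin k → ℤ) (T : Finset ι) :
    Submodule ℝ (Fin k → ℝ) :=
  Submodule.span ℝ {x | ∃ σ ∈ T, ∃ τ ∈ T, x = fun i => (z σ i : ℝ) - z τ i}

open Classical in
lemma rec_lt {ι : Type} {k : ℕ} (z : ι → Fin k → ℤ) (T : Finset ι) (u : ι → ℤ) (f : Fin k → ℝ)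
    (f₀ : ℝ) (hu : ∀ σ ∈ T, (u σ : ℝ) = ∑ i, f i * z σ i + f₀)
    (hne : ∃ σ ∈ T, ∃ τ ∈ T, u σ ≠ u τ) (c : ℤ) :
    Module.finrank ℝ (rec_D z (T.filter (fun σ => u σ = c))) < Module.finrank ℝ (rec_D z T) := by
  let φ : (Fin k → ℝ) →ₗ[ℝ] ℝ := ∑ i, (f i) • (LinearMap.proj i : (Fin k → ℝ) →ₗ[ℝ] ℝ)
  have hφ : ∀ x : Fin k → ℝ, φ x = ∑ i, f i * x i := by
    intro x
    simp only [φ, LinearMap.sum_apply, LinearMap.smul_apply, LinearMap.proj_apply, smul_eq_mul]
  have hd : ∀ σ ∈ T, ∀ τ ∈ T, φ (fun i => (z σ i : ℝ) - z τ i) = u σ - u τ := by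
    intro σ hσ τ hτ
    rw [hφ, hu σ hσ, hu τ hτ]
    have : ∑ i, f i * ((z σ i : ℝ) - z τ i) = ∑ i, f i * z σ i - ∑ i, f i * z τ i := by
      rw [← Finset.sum_sub_distrib]
      exact Finset.sum_congr rfl fun i _ => by ring
    rw [this]
    ring
  refine Submodule.finrank_lt_finrank_of_lt (lt_of_le_of_ne ?_ ?_)
  · refine Submodule.span_mono ?_
    rintro x ⟨σ, hσ, τ, hτ, rfl⟩
    exact ⟨σ, (Finset.mem_filter.mp hσ).1, τ, (Finset.mem_filter.mp hτ).1, rfl⟩
  · intro heq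
    obtain ⟨σ, hσ, τ, hτ, hst⟩ := hne
    have h1 : (fun i => (z σ i : ℝ) - z τ i) ∈ rec_D z T :=
      Submodule.subset_span ⟨σ, hσ, τ, hτ, rfl⟩
    rw [← heq] at h1
    have h2 : rec_D z (T.filter (fun σ => u σ = c)) ≤ LinearMap.ker φ := by
      refine Submodule.span_le.mpr ?_
      rintro x ⟨σ', hσ', τ', hτ', rfl⟩
      obtain ⟨a1, a2⟩ := Finset.mem_filter.mp hσ'
      obtain ⟨b1, b2⟩ := Finset.mem_filter.mp hτ'
      rw [SetLike.mem_coe, LinearMap.mem_ker, hd σ' a1 τ' b1, a2, b2, sub_self]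
    have h3 := LinearMap.mem_ker.mp (h2 h1)
    rw [hd σ hσ τ hτ] at h3
    apply hst
    have : (u σ : ℝ) = u τ := by linarith
    exact_mod_cast this

open Classical in
lemma rec_ind (h : ST_STEP) (ι : Type) [Fintype ι] (k m : ℕ) (ε : ℝ) (z : ι → Fin k → ℤ)
    (h0 : 0 < ε) (h1 : ε ≤ 1) (hm : ((k : ℝ) + 1) ^ 5 ≤ 8 * ε ^ 2 * m) :
    ∀ (e : ℕ) (T : Finset ι), T.Nonempty → Module.finrank ℝ (rec_D z T) ≤ e →
      ∃ F : Finset (Finset ι), F.card ≤ (2 * k * m + 1) ^ e ∧ (∀ T' ∈ F, T'.Nonempty ∧ Good ε z T') ∧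
        ∀ σ ∈ T, ∃ T' ∈ F, σ ∈ T' := by
  intro e
  induction e with
  | zero =>
    intro T hT hr
    rcases h ι k m ε z T hT h0 h1 hm with hg | ⟨u, f, f₀, _, hu, hne⟩
    · exact ⟨{T}, by simp, by simpa using ⟨hT, hg⟩, fun σ hσ => ⟨T, by simp, hσ⟩⟩
    · have := rec_lt z T u f f₀ hu hne 0
      omega
  | succ e ih =>
    intro T hT hr
    rcases h ι k m ε z T hT h0 h1 hm with hg | ⟨u, f, f₀, hb, hu, hne⟩
    · refine ⟨{T}, ?_, by simpa using ⟨hT, hg⟩, fun σ hσ => ⟨T, by simp, hσ⟩⟩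
      rw [Finset.card_singleton]
      exact Nat.one_le_pow _ _ (Nat.succ_pos _)
    · have key : ∀ c : ℤ, ∃ F : Finset (Finset ι), F.card ≤ (2 * k * m + 1) ^ e ∧
          (∀ T' ∈ F, T'.Nonempty ∧ Good ε z T') ∧
          ∀ σ ∈ T.filter (fun σ => u σ = c), ∃ T' ∈ F, σ ∈ T' := by
        intro c
        by_cases hc : (T.filter (fun σ => u σ = c)).Nonempty
        · have := rec_lt z T u f f₀ hu hne c
          exact ih _ hc (by omega)
        · refine ⟨∅, by simp, by simp, ?_⟩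
          rw [Finset.not_nonempty_iff_eq_empty] at hc
          rw [hc]
          simp
      choose F hF1 hF2 hF3 using key
      refine ⟨(T.image u).biUnion F, ?_, ?_, ?_⟩
      · have hsub : T.image u ⊆ Finset.Icc (-((k * m : ℕ) : ℤ)) ((k * m : ℕ) : ℤ) := by
          intro c hc
          obtain ⟨σ, hσ, rfl⟩ := Finset.mem_image.mp hc
          have := abs_le.mp (hb σ hσ)
          rw [Finset.mem_Icc]
          push_cast
          exact this
        have hcard : (T.image u).card ≤ 2 * k * m + 1 := by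
          have h3 := Finset.card_le_card hsub
          rw [Int.card_Icc] at h3
          have h4 : (((k * m : ℕ) : ℤ) + 1 - -((k * m : ℕ) : ℤ)).toNat = 2 * k * m + 1 := by
            have h5 : (((k * m : ℕ) : ℤ) + 1 - -((k * m : ℕ) : ℤ)) = ((2 * k * m + 1 : ℕ) : ℤ) := by
              push_cast
              ring
            rw [h5, Int.toNat_natCast]
          omega
        calc ((T.image u).biUnion F).card ≤ (T.image u).card * (2 * k * m + 1) ^ e :=
              Finset.card_biUnion_le_card_mul _ _ _ fun c _ => hF1 c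
          _ ≤ (2 * k * m + 1) * (2 * k * m + 1) ^ e := Nat.mul_le_mul_right _ hcard
          _ = (2 * k * m + 1) ^ (e + 1) := by ring
      · intro T' hT'
        obtain ⟨c, _, hc⟩ := Finset.mem_biUnion.mp hT'
        exact hF2 c T' hc
      · intro σ hσ
        obtain ⟨T', hT', hσ'⟩ := hF3 (u σ) σ (Finset.mem_filter.mpr ⟨hσ, rfl⟩)
        exact ⟨T', Finset.mem_biUnion.mpr ⟨u σ, Finset.mem_image_of_mem u hσ, hT'⟩, hσ'⟩

theorem st_REC (h1 : ST_STEP) : ST_REC := by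
  classical
  intro ι _ k m ε z h0 h01 hm
  by_cases hι : Nonempty ι
  · have hr : Module.finrank ℝ (rec_D z (Finset.univ : Finset ι)) ≤ k := by
      have := Submodule.finrank_le (rec_D z (Finset.univ : Finset ι))
      simpa using this
    obtain ⟨F, hF1, hF2, hF3⟩ := rec_ind h1 ι k m ε z h0 h01 hm k Finset.univ
      Finset.univ_nonempty hr
    exact ⟨F, hF1, hF2, fun σ => hF3 σ (Finset.mem_univ σ)⟩
  · exact ⟨∅, by simp, by simp, fun σ => absurd ⟨σ⟩ hι⟩

end Pool.Agent.Helper22.MI
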